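import Mathlib

/-! Strict intertwining of polynomials is not transitive. -/

set_option autoImplicit false

namespace Pool.Agent.Results.MP_c10dfe_an.NotTrans

open Polynomial

/-- `A ≥ B`: some non-constant polynomial `π` has `π ∘ A = B ∘ π` -/
def Semi (A B : ℂ[X]) : Prop := ∃ π : ℂ[X], 0 < π.natDegree ∧ π.comp A = B.comp π

lemma mult {π Φ P : ℂ[X]} (hπ : 0 < π.natDegree) (h : π.comp Φ = P.comp π) {z : ℂ} (hz : Φ.eval z = z) :
    P.eval (π.eval z) = π.eval z ∧ ∃ e : ℕ, 0 < e ∧ (derivative Φ).eval z ^ e = (derivative P).eval (π.eval z) := by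
  have hp : P.eval (π.eval z) = π.eval z := by
    have := congrArg (eval z) h
    rw [eval_comp, eval_comp, hz] at this
    exact this.symm
  refine ⟨hp, ?_⟩
  have h0 : π - C (π.eval z) ≠ 0 := by
    intro e
    rw [sub_eq_zero] at e
    rw [e, natDegree_C] at hπ
    exact lt_irrefl _ hπ
  obtain ⟨g, hg, hn⟩ := exists_eq_pow_rootMultiplicity_mul_and_not_dvd _ h0 z
  have he : 0 < rootMultiplicity z (π - C (π.eval z)) := (rootMultiplicity_pos h0).2 (by simp)
  generalize rootMultiplicity z (π - C (π.eval z)) = e at hg he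
  obtain ⟨k, hk⟩ : X - C z ∣ Φ - C z := dvd_iff_isRoot.2 (by simp [hz])
  obtain ⟨l, hl⟩ : X - C (π.eval z) ∣ P - C (π.eval z) := dvd_iff_isRoot.2 (by simp [hp])
  have dk : (derivative Φ).eval z = k.eval z := by
    have := congrArg (fun q => (derivative q).eval z) hk
    simpa using this
  have dl : (derivative P).eval (π.eval z) = l.eval (π.eval z) := by
    have := congrArg (fun q => (derivative q).eval (π.eval z)) hl
    simpa using this
  refine ⟨e, he, ?_⟩
  have e1 := congrArg (fun q => q.comp Φ) hg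
  have e2 := congrArg (fun q => q.comp π) hl
  simp only [sub_comp, C_comp, mul_comp, pow_comp, X_comp] at e1 e2
  rw [hk, h, e2, hg, mul_pow, mul_assoc, mul_assoc] at e1
  have e3 := congrArg (eval z) (mul_left_cancel₀ (pow_ne_zero e (X_sub_C_ne_zero z)) e1)
  simp only [eval_mul, eval_comp, eval_pow, hz] at e3
  have g0 : g.eval z ≠ 0 := fun e => hn (dvd_iff_isRoot.2 e)
  rw [dk, dl]
  exact mul_left_cancel₀ g0 (by rw [e3]; ring)

lemma nat_pow {a b m n : ℕ} (hm : 0 < m) (hab : Nat.Coprime a b) (ha : 1 < a) (h : a ^ m = b ^ n) :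
    False := by
  have := Nat.Coprime.pow m n hab
  rw [← h, Nat.coprime_self] at this
  exact (Nat.one_lt_pow hm.ne' ha).ne' this

theorem result : ∃ P Q R φ ψ : ℂ[X], P.natDegree = 3 ∧ Q.natDegree = 3 ∧ R.natDegree = 3 ∧ φ.natDegree = 3 ∧
    ψ.natDegree = 3 ∧ Semi φ P ∧ Semi φ R ∧ Semi ψ R ∧ Semi ψ Q ∧ ¬∃ Φ : ℂ[X], Semi Φ P ∧ Semi Φ Q := by
  have d1 : (X ^ 3 + C 5 * X : ℂ[X]).natDegree = 3 := by compute_degree!
  have d2 : (-(X ^ 3 + C 5 * X) : ℂ[X]).natDegree = 3 := by rw [natDegree_neg, d1]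
  refine ⟨X ^ 3 + C 5 * X, -(X ^ 3 + C 5 * X), X ^ 3 + C 10 * X ^ 2 + C 25 * X, X ^ 3 + C 5 * X, -(X ^ 3 + C 5 * X),
    d1, d2, by compute_degree!, d1, d2, ⟨X, by simp, by simp⟩, ⟨X ^ 2, by simp, ?_⟩, ⟨X ^ 2, by simp, ?_⟩,
    ⟨X, by simp, by simp⟩, ?_⟩
  · simp only [add_comp, mul_comp, pow_comp, X_comp, map_ofNat, ofNat_comp]
    push_cast
    ring
  · simp only [add_comp, mul_comp, pow_comp, X_comp, map_ofNat, ofNat_comp]
    push_cast
    ring
  rintro ⟨Φ, ⟨π, hπ, h⟩, σ, hσ, h'⟩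
  have dΦ : Φ.natDegree = 3 := by
    have := congrArg natDegree h
    rw [natDegree_comp, natDegree_comp, d1, mul_comm] at this
    exact Nat.eq_of_mul_eq_mul_right hπ this
  obtain ⟨z, hz⟩ := Complex.exists_root (f := Φ - X) (natDegree_pos_iff_degree_pos.1 (by
    rw [natDegree_sub_eq_left_of_natDegree_lt (by simp [dΦ]), dΦ]; norm_num))
  have hz' : Φ.eval z = z := by simpa [sub_eq_zero] using hz
  obtain ⟨a1, m, hm, a2⟩ := mult hπ h hz'
  obtain ⟨b1, n, hn, b2⟩ := mult hσ h' hz'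
  generalize π.eval z = p at a1 a2
  generalize σ.eval z = q at b1 b2
  generalize (derivative Φ).eval z = μ at a2 b2
  simp at a1 a2 b1 b2
  have hp : μ ^ m = 5 ∨ μ ^ m = -7 := by
    rcases mul_eq_zero.1 (show p * (p ^ 2 + 4) = 0 by linear_combination a1) with e | e
    · left; rw [a2, e]; ring
    · right; rw [a2]; linear_combination 3 * e
  have hq : μ ^ n = -5 ∨ μ ^ n = 13 := by
    rcases mul_eq_zero.1 (show q * (q ^ 2 + 6) = 0 by linear_combination -b1) with e | e
    · left; rw [b2, e]; ring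
    · right; rw [b2]; linear_combination -3 * e
  have key : ‖μ ^ m‖ ^ n = ‖μ ^ n‖ ^ m := by rw [norm_pow, norm_pow, ← pow_mul, ← pow_mul, mul_comm]
  rcases hp with hp | hp <;> rcases hq with hq | hq <;> rw [hp, hq] at key <;>
    simp only [norm_neg, Complex.norm_ofNat] at key
  · have : n = m := pow_right_injective₀ (by norm_num) (by norm_num) key
    rw [this, hp] at hq
    norm_num at hq
  · exact nat_pow (a := 5) (b := 13) hn (by norm_num) (by norm_num) (by exact_mod_cast key)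
  · exact nat_pow (a := 7) (b := 5) hn (by norm_num) (by norm_num) (by exact_mod_cast key)
  · exact nat_pow (a := 7) (b := 13) hn (by norm_num) (by norm_num) (by exact_mod_cast key)

end Pool.Agent.Results.MP_c10dfe_an.NotTrans
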